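import Pool.Agent.H62.KG.NU

/-!
# Project KEW: the differential of the Gersten complex on families
-/

namespace Pool.Agent.H62.KG

open AlgebraicGeometry CategoryTheory Pool.Agent.H12.KG Pool.Agent.H19.KN Pool.Agent.H62.MK
  Pool.Agent.H17.KW Pool.Agent.H15.KEW IsLocalRing

universe u

variable (X : Scheme.{u}) [AlgebraicGeometry.IsNoetherian X] (d s : ℕ)

open Classical in
/-- The coordinates of the differential. -/
theorem dFam_apply (a : Π₀ v : Pts X d (s + 1), MilnorK (kap X v.1) (s + 1)) (w : Pts X d s) :
    dFam X d s a w = ∑ v ∈ a.support, entry v.1 w.1 s (a v) := by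
  unfold dFam
  rw [DFinsupp.liftAddHom_apply, DFinsupp.sumAddHom_apply, DFinsupp.sum, DFinsupp.finsetSum_apply]
  exact Finset.sum_congr rfl fun v _ => column_apply X d s v (a v) w

/-- A coordinate of the differential lies in a subgroup if all residues do. -/
theorem dFam_mem (a : Π₀ v : Pts X d (s + 1), MilnorK (kap X v.1) (s + 1)) (w : Pts X d s)
    (S : AddSubgroup (MilnorK (kap X w.1) s))
    (H : ∀ (v : Pts X d (s + 1)) (h : v.1 ⤳ w.1), resX h s (a v) ∈ S) :
    dFam X d s a w ∈ S := by
  classical
  rw [dFam_apply]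
  refine sum_mem fun v _ => ?_
  by_cases h : v.1 ⤳ w.1
  · rw [entry_eq h]
    exact H v h
  · rw [entry_of_not X h]
    exact zero_mem _

omit [AlgebraicGeometry.IsNoetherian X] in
/-- The differential of a family supported at `w` is supported on the closure of `w`. -/
theorem specializes_of_dFam_ne_zero [DecidableEq (Pts X d (s + 1))] (w : Pts X d (s + 1))
    (c : MilnorK (kap X w.1) (s + 1)) (v : Pts X d s)
    (h : dFam X d s (DFinsupp.single w c) v ≠ 0) : w.1 ⤳ v.1 := by
  classical
  by_contra hne
  apply h
  unfold dFam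
  have := congrArg (fun f => f v) (liftAddHom_single_any (column X d s) w c)
  refine this.trans ?_
  exact column_apply_of_not X d s w v hne c

/-- Integral units have differential zero, in the form of `S_LAST`. -/
theorem dFam_single_integral [DecidableEq (Pts X d 1)] (w : Pts X d 1) (v : Pts X d 0)
    (hwv : w.1 ⤳ v.1) (u : (X.residueField w.1)ˣ)
    (h1 : (Pool.Agent.H12.KG.rho hwv).IsIntegralElem (u : X.residueField w.1))
    (h2 : (Pool.Agent.H12.KG.rho hwv).IsIntegralElem
      (((u⁻¹ : (X.residueField w.1)ˣ)) : X.residueField w.1)) :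
    dFam X d 0 (DFinsupp.single w (sym (fun _ => u))) v = 0 :=
  dFam_single_sym_units X d 0 w (fun _ => u) v fun _ _ => ⟨h1, h2⟩

end Pool.Agent.H62.KG
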