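import Mathlib

/-!
# Ext groups and exact functors with an adjunction-like map
-/

open CategoryTheory Abelian Limits

universe w w' v v' u u'

namespace Pool.Agent.H62.Clos

noncomputable section

variable {C : Type u} [Category.{v} C] [Abelian C] [HasExt.{w} C]
  {D : Type u'} [Category.{v'} D] [Abelian D] [HasExt.{w'} D] (R : C ⥤ D) [R.Additive]
  [PreservesFiniteLimits R] [PreservesFiniteColimits R] {A : C} {B : D} (u : B ⟶ R.obj A)

/-- The map `Ext^n(A, F) → Ext^n(B, R F)` attached to `B → R A`. -/
def extPush (F : C) (n : ℕ) : Ext.{w} A F n →+ Ext.{w'} B (R.obj F) n where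
  toFun x := (Ext.mk₀ u).comp (x.mapExactFunctor R) (zero_add n)
  map_zero' := by rw [Ext.mapExactFunctor_zero, Ext.comp_zero]
  map_add' x y := by rw [Ext.mapExactFunctor_add, Ext.comp_add]

lemma extPush_apply (F : C) (n : ℕ) (x : Ext.{w} A F n) :
    extPush R u F n x = (Ext.mk₀ u).comp (x.mapExactFunctor R) (zero_add n) := rfl

lemma extPush_comp {F G : C} {a b c : ℕ} (h : a + b = c) (x : Ext.{w} A F a)
    (e : Ext.{w} F G b) :
    extPush R u G c (x.comp e h) = (extPush R u F a x).comp (e.mapExactFunctor R) h := by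
  rw [extPush_apply, extPush_apply, Ext.mapExactFunctor_comp, Ext.comp_assoc _ _ _ (zero_add a) h
    (by omega)]

lemma extPush_mk₀ {F G : C} (g : F ⟶ G) (n : ℕ) (x : Ext.{w} A F n) :
    extPush R u G n (x.comp (Ext.mk₀ g) (add_zero n)) =
      (extPush R u F n x).comp (Ext.mk₀ (R.map g)) (add_zero n) := by
  rw [extPush_comp, Ext.mapExactFunctor_mk₀]

lemma extPush_zero_bijective (F : C)
    (h0 : Function.Bijective (fun f : A ⟶ F => u ≫ R.map f)) :
    Function.Bijective (extPush R u F 0) := by
  have h : ∀ f : A ⟶ F, extPush R u F 0 (Ext.mk₀ f) = Ext.mk₀ (u ≫ R.map f) := by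
    intro f
    rw [extPush_apply, Ext.mapExactFunctor_mk₀, Ext.mk₀_comp_mk₀]
  constructor
  · intro x y hxy
    obtain ⟨f, rfl⟩ := (Ext.mk₀_bijective _ _).2 x
    obtain ⟨g, rfl⟩ := (Ext.mk₀_bijective _ _).2 y
    rw [h, h] at hxy
    exact congrArg _ (h0.1 ((Ext.mk₀_bijective _ _).1 hxy))
  · intro z
    obtain ⟨g, rfl⟩ := (Ext.mk₀_bijective _ _).2 z
    obtain ⟨f, hf⟩ := h0.2 g
    exact ⟨Ext.mk₀ f, (h f).trans (congrArg _ hf)⟩

/-- The map on Ext groups is bijective in all degrees if it is so in degree zero and `R` maps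
injective objects to objects which are acyclic for `Hom(B, -)`. -/
theorem extPush_bijective [EnoughInjectives C]
    (h0 : ∀ F : C, Function.Bijective (fun f : A ⟶ F => u ≫ R.map f))
    (h1 : ∀ (I : C), Injective I → ∀ n : ℕ, Subsingleton (Ext.{w'} B (R.obj I) (n + 1)))
    (F : C) (n : ℕ) : Function.Bijective (extPush R u F n) := by
  induction n generalizing F with
  | zero => exact extPush_zero_bijective R u F (h0 F)
  | succ n ih =>
    let S : ShortComplex C := ShortComplex.mk (Injective.ι F) (Limits.cokernel.π _)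
      (Limits.cokernel.condition _)
    have hS : S.ShortExact := ShortComplex.ShortExact.mk' (ShortComplex.exact_cokernel _)
      (inferInstanceAs (Mono (Injective.ι F))) (inferInstanceAs (Epi (Limits.cokernel.π _)))
    have hinj : Injective S.X₂ := inferInstanceAs (Injective (Injective.under F))
    have h2 : Subsingleton (Ext.{w'} B (S.map R).X₂ (n + 1)) := h1 S.X₂ hinj n
    have hS' : (S.map R).ShortExact := hS.map_of_exact R
    constructor
    · rw [injective_iff_map_eq_zero]
      intro x hx
      obtain ⟨y, hy⟩ := Ext.covariant_sequence_exact₁ _ hS x (Ext.eq_zero_of_injective _) rfl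
      rw [← hy] at hx
      have e1 : extPush R u S.X₁ (n + 1) (y.comp hS.extClass rfl) =
          (extPush R u S.X₃ n y).comp hS'.extClass rfl := by
        rw [extPush_comp, Ext.mapExactFunctor_extClass]
        rfl
      have e2 : (extPush R u S.X₃ n y).comp hS'.extClass rfl = 0 := e1.symm.trans hx
      obtain ⟨z, hz⟩ := Ext.covariant_sequence_exact₃ _ hS' (extPush R u S.X₃ n y) rfl e2
      obtain ⟨w, rfl⟩ := (ih S.X₂).2 z
      have e3 : y = w.comp (Ext.mk₀ S.g) (add_zero n) := by
        apply (ih S.X₃).1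
        rw [extPush_mk₀]
        exact hz.symm
      rw [← hy, e3, Ext.comp_assoc (a₁₂ := n) (a₂₃ := 1) _ _ _ (by omega)
        (by omega) (by omega), hS.comp_extClass, Ext.comp_zero]
    · intro x
      obtain ⟨y, hy⟩ := Ext.covariant_sequence_exact₁ _ hS' x (Subsingleton.elim _ _) rfl
      obtain ⟨z, rfl⟩ := (ih S.X₃).2 y
      refine ⟨z.comp hS.extClass rfl, ?_⟩
      rw [← hy, extPush_comp, Ext.mapExactFunctor_extClass]
      rfl

end

end Pool.Agent.H62.Clos
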