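import Pool.Agent.H84.KEW.Coh
import Pool.Agent.H18.KEW.Flasque
import Pool.Agent.H62.KG.ExtPush

/-!
# Cohomology of the direct image under a closed embedding
-/

open CategoryTheory TopologicalSpace Opposite Abelian Limits

universe u

namespace Pool.Agent.H62.Clos

open Pool.Agent.H84.KEW

noncomputable section

variable {X Y : TopCat.{u}} (i : Y ⟶ X)

/-- The direct image functor. -/
abbrev R : Shf Y ⥤ Shf X := TopCat.Sheaf.pushforward AddCommGrpCat.{u} i

instance : (R i).Additive where
  map_add := rfl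

/-- The direct image under a closed embedding preserves short exact sequences. -/
theorem shortExact_map (hi : Topology.IsClosedEmbedding i) (S : ShortComplex (Shf Y))
    (hS : S.ShortExact) : (S.map (R i)).ShortExact := by
  refine shortExact_of_local _ ?_ ?_ ?_
  · intro U f hf
    have hm := hS.mono_f
    have h1 := (Sheaf.Hom.mono_iff_presheaf_mono _ _ _).mp hm
    have h2 := (NatTrans.mono_iff_mono_app _).mp h1 (op ((Opens.map i).obj U))
    have h3 := (AddCommGrpCat.mono_iff_injective _).mp h2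
    exact h3 (hf.trans (map_zero _).symm)
  · intro U g hg x hx
    obtain ⟨t, ht⟩ := TopCat.Sheaf.sections_exact_of_left_exact (U := (Opens.map i).obj U)
      hS.exact hS.mono_f g hg
    refine ⟨U, le_rfl, hx, t, ?_⟩
    refine ht.trans ?_
    have : (S.map (R i)).X₂.obj.map (homOfLE (le_refl U)).op = 𝟙 _ := by
      rw [show (homOfLE (le_refl U)).op = 𝟙 _ from rfl, CategoryTheory.Functor.map_id]
    rw [this]
    rfl
  · intro U h x hx
    have hle := (TopCat.Sheaf.isLocallySurjective_iff_epi S.g).mpr hS.epi_g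
    by_cases hxi : x ∈ Set.range i
    · obtain ⟨y, rfl⟩ := hxi
      obtain ⟨W, hWle, ⟨t, ht⟩, hyW⟩ :=
        (TopCat.Presheaf.isLocallySurjective_iff S.g.hom).mp hle ((Opens.map i).obj U) h y hx
      obtain ⟨V0, hV0, hV0W⟩ := hi.isInducing.isOpen_iff.mp W.isOpen
      let V : Opens X := ⟨V0 ∩ U, hV0.inter U.isOpen⟩
      have hVW : (Opens.map i).obj V ≤ W := by
        rintro z ⟨hz, -⟩
        rw [← SetLike.mem_coe, ← hV0W]
        exact hz
      have hVU : V ≤ U := fun z hz => hz.2
      have hyV : i y ∈ V := by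
        refine ⟨?_, hx⟩
        have : y ∈ i ⁻¹' V0 := by rw [hV0W]; exact hyW
        exact this
      refine ⟨V, hVU, hyV, S.X₂.obj.map (homOfLE hVW).op t, ?_⟩
      have e1 : S.g.hom.app (op ((Opens.map i).obj V)) (S.X₂.obj.map (homOfLE hVW).op t) =
          S.X₃.obj.map (homOfLE hVW).op (S.g.hom.app (op W) t) :=
        ConcreteCategory.congr_hom (S.g.hom.naturality (homOfLE hVW).op) t
      refine e1.trans ?_
      rw [ht]
      have e2 : S.X₃.obj.map (homOfLE hVW).op (S.X₃.obj.map (homOfLE hWle).op h) =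
          S.X₃.obj.map ((homOfLE hWle).op ≫ (homOfLE hVW).op) h :=
        (ConcreteCategory.congr_hom (S.X₃.obj.map_comp (homOfLE hWle).op (homOfLE hVW).op) h).symm
      exact e2
    · let V : Opens X := ⟨U ∩ (Set.range i)ᶜ, U.isOpen.inter hi.isClosed_range.isOpen_compl⟩
      have hVe : (Opens.map i).obj V = ⊥ := by
        ext y
        constructor
        · rintro ⟨-, hy⟩
          exact (hy ⟨y, rfl⟩).elim
        · intro hy
          exact hy.elim
      refine ⟨V, fun z hz => hz.1, ⟨hx, hxi⟩, 0, ?_⟩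
      have hsub : Subsingleton (S.X₃.obj.obj (op ((Opens.map i).obj V))) := by
        have hT := TopCat.Sheaf.isTerminalOfEqEmpty S.X₃ hVe
        exact AddCommGrpCat.subsingleton_of_isZero
          ((isZero_zero AddCommGrpCat.{u}).of_iso
            (hT.uniqueUpToIso (isZero_zero AddCommGrpCat.{u}).isTerminal))
      exact @Subsingleton.elim _ hsub _ _

/-- The constant sheaf `ℤ`. -/
abbrev ZZ (X : TopCat.{u}) : Shf X :=
  (constantSheaf (Opens.grothendieckTopology X) AddCommGrpCat.{u}).obj
    (AddCommGrpCat.of (ULift.{u} ℤ))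

/-- The adjunction between constant sheaves and global sections. -/
abbrev adj (X : TopCat.{u}) := constantSheafAdj (Opens.grothendieckTopology X) AddCommGrpCat.{u}
  (T := (⊤ : Opens X)) isTerminalTop

/-- The natural map `ℤ_X → i_* ℤ_Y`. -/
def uZ : ZZ X ⟶ (R i).obj (ZZ Y) :=
  ((adj X).homEquiv (AddCommGrpCat.of (ULift.{u} ℤ)) ((R i).obj (ZZ Y))).symm
    ((adj Y).unit.app (AddCommGrpCat.of (ULift.{u} ℤ)))

lemma uZ_map_bijective (F : Shf Y) :
    Function.Bijective (fun f : ZZ Y ⟶ F => uZ i ≫ (R i).map f) := by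
  have h : ∀ f : ZZ Y ⟶ F, (adj X).homEquiv _ _ (uZ i ≫ (R i).map f) =
      (adj Y).homEquiv (AddCommGrpCat.of (ULift.{u} ℤ)) F f := by
    intro f
    have e1 := (adj X).homEquiv_naturality_right (uZ i) ((R i).map f)
    have e2 : (adj X).homEquiv (AddCommGrpCat.of (ULift.{u} ℤ)) ((R i).obj (ZZ Y)) (uZ i) =
        (adj Y).unit.app (AddCommGrpCat.of (ULift.{u} ℤ)) := Equiv.apply_symm_apply _ _
    have e3 := (adj Y).homEquiv_unit (X := AddCommGrpCat.of (ULift.{u} ℤ)) (Y := F) (f := f)
    refine e1.trans ?_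
    rw [e2]
    exact e3.symm
  constructor
  · intro f g hfg
    apply ((adj Y).homEquiv (AddCommGrpCat.of (ULift.{u} ℤ)) F).injective
    rw [← h, ← h]
    exact congrArg _ hfg
  · intro g
    refine ⟨((adj Y).homEquiv (AddCommGrpCat.of (ULift.{u} ℤ)) F).symm
      ((adj X).homEquiv (AddCommGrpCat.of (ULift.{u} ℤ)) ((R i).obj F) g), ?_⟩
    apply ((adj X).homEquiv (AddCommGrpCat.of (ULift.{u} ℤ)) ((R i).obj F)).injective
    refine (h _).trans ?_
    exact Equiv.apply_symm_apply _ _

/-- The direct image under a closed embedding is exact. -/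
theorem exact_R (hi : Topology.IsClosedEmbedding i) :
    PreservesFiniteLimits (R i) ∧ PreservesFiniteColimits (R i) :=
  ((Functor.exact_tfae (R i)).out 0 3).mp (shortExact_map i hi)

/-- The direct image of an injective sheaf is acyclic. -/
theorem acyclic_R (I : Shf Y) (hI : Injective I) (n : ℕ) :
    Subsingleton (Sheaf.H ((R i).obj I) (n + 1)) := by
  have hfl : TopCat.Presheaf.IsFlasque I.obj := Pool.Agent.H18.KEW.isFlasque_of_injective I
  have hfl2 : TopCat.Presheaf.IsFlasque ((R i).obj I).obj :=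
    TopCat.Presheaf.IsFlasque.pushforward_isFlasque I.obj i
  exact Pool.Agent.H18.KEW.subsingleton_H_of_isFlasque _ n hfl2

/-- The natural map `H^n(Y, F) → H^n(X, i_* F)` for a closed embedding `i : Y → X`. -/
def push (hi : Topology.IsClosedEmbedding i) (F : Shf Y) (n : ℕ) :
    Sheaf.H F n →+ Sheaf.H ((R i).obj F) n :=
  have := (exact_R i hi).1
  have := (exact_R i hi).2
  extPush (R i) (uZ i) F n

/-- The natural map `H^n(Y, F) → H^n(X, i_* F)` is bijective for a closed embedding. -/
theorem push_bijective (hi : Topology.IsClosedEmbedding i) (F : Shf Y) (n : ℕ) :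
    Function.Bijective (push i hi F n) := by
  have := (exact_R i hi).1
  have := (exact_R i hi).2
  exact extPush_bijective (R i) (uZ i) (uZ_map_bijective i) (acyclic_R i) F n

/-- Naturality of the map `H^n(Y, F) → H^n(X, i_* F)`. -/
theorem push_map (hi : Topology.IsClosedEmbedding i) {F G : Shf Y} (g : F ⟶ G) (n : ℕ)
    (x : Sheaf.H F n) :
    push i hi G n (Sheaf.H.map g n x) = Sheaf.H.map ((R i).map g) n (push i hi F n x) := by
  have := (exact_R i hi).1
  have := (exact_R i hi).2
  exact extPush_mk₀ (R i) (uZ i) g n x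

/-- `H^n(Y, F) = H^n(X, i_* F)` for a closed embedding `i : Y → X`. -/
def pushEquiv (hi : Topology.IsClosedEmbedding i) (F : Shf Y) (n : ℕ) :
    Sheaf.H F n ≃+ Sheaf.H ((R i).obj F) n :=
  AddEquiv.ofBijective (push i hi F n) (push_bijective i hi F n)

end

end Pool.Agent.H62.Clos
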