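import Pool.Agent.H17.KW.ResMap
import Pool.Agent.H62.KG.Clos

/-!
# The restriction map with values in the cohomology of the thickening itself
-/

open CategoryTheory TopologicalSpace Opposite AlgebraicGeometry Limits
open Pool.Agent.H62.MK Pool.Agent.H84.KEW Pool.Agent.H17.KW

universe u

namespace Pool.Agent.H62.Clos

noncomputable section

/-- The composition of a homomorphism with the inverse of an isomorphism. -/
def compSymm {G H K : Type*} [AddCommGroup G] [AddCommGroup H] [AddCommGroup K]
    (e : H ≃+ K) (g : G →+ K) : G →+ H := e.symm.toAddMonoidHom.comp g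

theorem compSymm_apply {G H K : Type*} [AddCommGroup G] [AddCommGroup H] [AddCommGroup K]
    (e : H ≃+ K) (g : G →+ K) (x : G) : compSymm e g x = e.symm (g x) := rfl

theorem inj_iff_of_equiv {G H K : Type*} [AddCommGroup G] [AddCommGroup H] [AddCommGroup K]
    (e : H ≃+ K) (g : G →+ K) :
    Function.Injective (compSymm e g) ↔ Function.Injective g := by
  unfold compSymm
  rw [AddMonoidHom.coe_comp]
  exact e.symm.comp_injective _

theorem surj_iff_of_equiv {G H K : Type*} [AddCommGroup G] [AddCommGroup H] [AddCommGroup K]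
    (e : H ≃+ K) (g : G →+ K) :
    Function.Surjective (compSymm e g) ↔ Function.Surjective g := by
  unfold compSymm
  rw [AddMonoidHom.coe_comp]
  exact e.symm.comp_surjective _

/-- The homomorphism between source groups which corresponds to a homomorphism between targets of
isomorphisms. -/
def conj {G H K L : Type*} [AddCommGroup G] [AddCommGroup H] [AddCommGroup K] [AddCommGroup L]
    (e : G ≃+ H) (e' : K ≃+ L) (g : H →+ L) : G →+ K :=
  e'.symm.toAddMonoidHom.comp (g.comp e.toAddMonoidHom)

theorem conj_apply {G H K L : Type*} [AddCommGroup G] [AddCommGroup H] [AddCommGroup K]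
    [AddCommGroup L] (e : G ≃+ H) (e' : K ≃+ L) (g : H →+ L) (x : G) :
    conj e e' g x = e'.symm (g (e x)) := rfl

theorem conj_compSymm {G H K L M : Type*} [AddCommGroup G] [AddCommGroup H] [AddCommGroup K]
    [AddCommGroup L] [AddCommGroup M] (e : G ≃+ H) (e' : K ≃+ L) (g : H →+ L) (r : M →+ H)
    (r' : M →+ L) (h : ∀ x, g (r x) = r' x) (x : M) :
    conj e e' g (compSymm e r x) = compSymm e' r' x := by
  rw [conj_apply, compSymm_apply, compSymm_apply, e.apply_symm_apply, h]

theorem conj_conj {G H K L M N : Type*} [AddCommGroup G] [AddCommGroup H] [AddCommGroup K]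
    [AddCommGroup L] [AddCommGroup M] [AddCommGroup N] (e : G ≃+ H) (e' : K ≃+ L) (e'' : M ≃+ N)
    (g : H →+ L) (g' : L →+ N) (g'' : H →+ N) (h : ∀ x, g' (g x) = g'' x) (x : G) :
    conj e' e'' g' (conj e e' g x) = conj e e'' g'' x := by
  rw [conj_apply, conj_apply, conj_apply, e'.apply_symm_apply, h]

theorem conj_id {G H : Type*} [AddCommGroup G] [AddCommGroup H] (e : G ≃+ H) (g : H →+ H)
    (h : ∀ x, g x = x) (x : G) : conj e e g x = x := by
  rw [conj_apply, h, e.symm_apply_apply]

variable {A : Type u} [CommRing A] [IsLocalRing A] {X : Scheme.{u}}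

instance isClosedImmersion_thickι (f : X ⟶ Spec (CommRingCat.of A)) (n : ℕ) :
    IsClosedImmersion (thickι f n) := by
  have h : IsClosedImmersion (Spec.map (CommRingCat.ofHom
      (Ideal.Quotient.mk (IsLocalRing.maximalIdeal A ^ n)))) :=
    IsClosedImmersion.spec_of_surjective _ Ideal.Quotient.mk_surjective
  exact MorphismProperty.of_isPullback (P := @IsClosedImmersion)
    (IsPullback.of_hasPullback f _).flip h

/-- `H^k(X_n, K^M_{m, X_n} / q) = H^k(X, F_n)`. -/
def thickEquiv (f : X ⟶ Spec (CommRingCat.of A)) (q m n k : ℕ) :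
    Sheaf.H (KModSh (thick f n) q m) k ≃+ Sheaf.H (Fsh f q m n) k :=
  pushEquiv (thickι f n).base (thickι f n).isClosedEmbedding (KModSh (thick f n) q m) k

variable [IsNoetherian X] {e : ℕ}

/-- The restriction map `CH^d(X) / q → H^d(X_n, K^M_{d, X_n} / q)`, `d = e + 1`, with values in the
cohomology of the thickening `X_n` itself. -/
def resThick (f : X ⟶ Spec (CommRingCat.of A)) (q n : ℕ) (h : Gersten X e) :
    ModQ q (CH X e) →+ Sheaf.H (KModSh (thick f n) q (e + 1)) (e + 1) :=
  compSymm (thickEquiv f q (e + 1) n (e + 1)) (res f q n h)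

theorem resThick_injective_iff (f : X ⟶ Spec (CommRingCat.of A)) (q n : ℕ) (h : Gersten X e) :
    Function.Injective (resThick f q n h) ↔ Function.Injective (res f q n h) :=
  inj_iff_of_equiv _ _

theorem resThick_surjective_iff (f : X ⟶ Spec (CommRingCat.of A)) (q n : ℕ) (h : Gersten X e) :
    Function.Surjective (resThick f q n h) ↔ Function.Surjective (res f q n h) :=
  surj_iff_of_equiv _ _

end

end Pool.Agent.H62.Clos
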