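import Pool.Agent.H62.KG.TransSh
import Pool.Agent.H62.KG.Thick
import Pool.Agent.H14.KEW.Epi

/-!
# The transition maps of the pro-system `H^k(X_n, K^M_{m, X_n} / q)`
-/

open CategoryTheory TopologicalSpace Opposite AlgebraicGeometry Limits
open Pool.Agent.H62.MK Pool.Agent.H84.KEW Pool.Agent.H17.KW

universe u

namespace Pool.Agent.H62.Clos

noncomputable section

section general

variable {X Y Y' : Scheme.{u}} (i : Y ⟶ X) (j : Y' ⟶ Y) (i' : Y' ⟶ X) (h : j ≫ i = i') (q n : ℕ)

/-- The natural map of sheaves `i_* (K_{n,Y} / q) → i'_* (K_{n,Y'} / q)` for `i' = j ≫ i`. -/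
def transH : dirIm i (KModSh Y q n) ⟶ dirIm i' (KModSh Y' q n) :=
  h ▸ transG i j q n

lemma redSh_transH : redSh i q n ≫ transH i j i' h q n = redSh i' q n := by
  subst h
  exact redSh_transG i j q n

end general

section thick

variable {A : Type u} [CommRing A] [IsLocalRing A] {X : Scheme.{u}}
  (f : X ⟶ Spec (CommRingCat.of A))

lemma factor_comp {n n' : ℕ} (h : n ≤ n') :
    Spec.map (CommRingCat.ofHom (Ideal.Quotient.factor
      (Ideal.pow_le_pow_right (I := IsLocalRing.maximalIdeal A) h))) ≫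
      Spec.map (CommRingCat.ofHom (Ideal.Quotient.mk (IsLocalRing.maximalIdeal A ^ n'))) =
    Spec.map (CommRingCat.ofHom (Ideal.Quotient.mk (IsLocalRing.maximalIdeal A ^ n))) := by
  rw [← Spec.map_comp]
  rfl

lemma thick_cond {n n' : ℕ} (h : n ≤ n') :
    pullback.fst f (Spec.map (CommRingCat.ofHom
      (Ideal.Quotient.mk (IsLocalRing.maximalIdeal A ^ n)))) ≫ f =
    (pullback.snd f (Spec.map (CommRingCat.ofHom
      (Ideal.Quotient.mk (IsLocalRing.maximalIdeal A ^ n)))) ≫
      Spec.map (CommRingCat.ofHom (Ideal.Quotient.factor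
        (Ideal.pow_le_pow_right (I := IsLocalRing.maximalIdeal A) h)))) ≫
      Spec.map (CommRingCat.ofHom (Ideal.Quotient.mk (IsLocalRing.maximalIdeal A ^ n'))) := by
  rw [Category.assoc, factor_comp h]
  exact pullback.condition

/-- The closed immersion `X_n → X_n'` for `n ≤ n'`. -/
def thickMap {n n' : ℕ} (h : n ≤ n') : thick f n ⟶ thick f n' :=
  pullback.lift _ _ (thick_cond f h)

lemma thickMap_ι {n n' : ℕ} (h : n ≤ n') : thickMap f h ≫ thickι f n' = thickι f n :=
  pullback.lift_fst _ _ _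

/-- The transition map of sheaves on `X`. -/
def transSh (q m : ℕ) {n n' : ℕ} (h : n ≤ n') : Fsh f q m n' ⟶ Fsh f q m n :=
  transH (thickι f n') (thickMap f h) (thickι f n) (thickMap_ι f h) q m

lemma redSh_transSh (q m : ℕ) {n n' : ℕ} (h : n ≤ n') :
    redSh (thickι f n') q m ≫ transSh f q m h = redSh (thickι f n) q m :=
  redSh_transH _ _ _ _ q m

lemma transSh_refl (q m n : ℕ) : transSh f q m (le_refl n) = 𝟙 _ := by
  refine (cancel_epi (redSh (thickι f n) q m)).mp ?_
  refine (redSh_transSh f q m (le_refl n)).trans ?_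
  exact (Category.comp_id _).symm

lemma transSh_trans (q m : ℕ) {n n' n'' : ℕ} (h : n ≤ n') (h' : n' ≤ n'') :
    transSh f q m h' ≫ transSh f q m h = transSh f q m (h.trans h') := by
  refine (cancel_epi (redSh (thickι f n'') q m)).mp ?_
  have e1 := Category.assoc (redSh (thickι f n'') q m) (transSh f q m h') (transSh f q m h)
  refine e1.symm.trans ?_
  rw [redSh_transSh f q m h', redSh_transSh f q m (h.trans h')]
  exact redSh_transSh f q m h

/-- The transition maps on `H^k(X, F_n)`. -/
def transX (q m k : ℕ) {n n' : ℕ} (h : n ≤ n') :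
    Sheaf.H (Fsh f q m n') k →+ Sheaf.H (Fsh f q m n) k := Sheaf.H.map (transSh f q m h) k

lemma transX_apply (q m k : ℕ) {n n' : ℕ} (h : n ≤ n') (x : Sheaf.H (Fsh f q m n') k) :
    transX f q m k h x = Sheaf.H.map (transSh f q m h) k x := rfl

lemma transX_refl (q m k n : ℕ) (x : Sheaf.H (Fsh f q m n) k) :
    transX f q m k (le_refl n) x = x := by
  rw [transX_apply, transSh_refl]
  exact Sheaf.H.map_id_apply x

lemma transX_trans (q m k : ℕ) {n n' n'' : ℕ} (h : n ≤ n') (h' : n' ≤ n'')
    (x : Sheaf.H (Fsh f q m n'') k) :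
    transX f q m k h (transX f q m k h' x) = transX f q m k (h.trans h') x := by
  rw [transX_apply, transX_apply, transX_apply, ← transSh_trans f q m h h']
  exact (Sheaf.H.map_comp_apply _ _ x).symm

/-- The transition map `H^k(X_n', K_m / q) → H^k(X_n, K_m / q)`. -/
def trans (q m k : ℕ) {n n' : ℕ} (h : n ≤ n') :
    Sheaf.H (KModSh (thick f n') q m) k →+ Sheaf.H (KModSh (thick f n) q m) k :=
  conj (thickEquiv f q m n' k) (thickEquiv f q m n k) (transX f q m k h)

lemma trans_refl (q m k n : ℕ) (x : Sheaf.H (KModSh (thick f n) q m) k) :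
    trans f q m k (le_refl n) x = x :=
  conj_id _ _ (transX_refl f q m k n) x

lemma trans_trans (q m k : ℕ) {n n' n'' : ℕ} (h : n ≤ n') (h' : n' ≤ n'')
    (x : Sheaf.H (KModSh (thick f n'') q m) k) :
    trans f q m k h (trans f q m k h' x) = trans f q m k (h.trans h') x :=
  conj_conj _ _ _ _ _ _ (transX_trans f q m k h h') x

end thick

end

end Pool.Agent.H62.Clos
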