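import Pool.Agent.H62.KG.Diff
import Pool.Agent.H14.KM.TB

/-!
# The last differential of the Gersten complex is the divisor map
-/

namespace Pool.Agent.H62.KG

open Function Pool.Agent.H62.MK Pool.Agent.H17.KW AlgebraicGeometry

universe u

section deg

variable {F : Type u} [Field F]

/-- The isomorphism `K_0(F) = ℤ`. -/
noncomputable def deg0 (F : Type u) [Field F] : MilnorK F 0 →+ ℤ :=
  lift (fun _ => 1) (fun _ i => i.elim0) (fun _ i hi => absurd hi (by omega))

theorem deg0_one : deg0 F one0 = 1 := lift_sym _ _ _ _

theorem eq_smul_one0 (x : MilnorK F 0) : x = deg0 F x • one0 := by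
  refine MilnorK.induction (p := fun x => x = deg0 F x • one0) x ?_ ?_ ?_ ?_
  · rw [map_zero, zero_smul]
  · intro a
    have : (sym a : MilnorK F 0) = one0 := by
      unfold one0
      congr 1
      funext i
      exact i.elim0
    rw [this, deg0_one, one_smul]
  · intro x hx
    rw [map_neg, neg_smul, ← hx]
  · intro x y hx hy
    rw [map_add, add_smul, ← hx, ← hy]

/-- `K_0(F) = ℤ`. -/
theorem deg0_bijective : Function.Bijective (deg0 F) := by
  constructor
  · intro x y h
    rw [eq_smul_one0 x, eq_smul_one0 y, h]
  · intro n
    exact ⟨n • one0, by rw [map_zsmul, deg0_one, smul_eq_mul, mul_one]⟩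

/-- The norm on `K_0` is the multiplication by the degree. -/
theorem deg0_norm (E : Type u) [Field E] [Algebra F E] (x : MilnorK E 0) :
    deg0 F (norm F E 0 x) = Module.finrank F E * deg0 E x := by
  by_cases h : FiniteDimensional F E
  · rw [eq_smul_one0 x, map_zsmul, Pool.Agent.H14.KM.pf_DEGE F E, map_zsmul, map_nsmul, map_zsmul,
      deg0_one, deg0_one]
    simp [mul_comm]
  · have h1 : norm F E 0 = 0 := by
      unfold Pool.Agent.H62.MK.norm
      rw [dif_neg h]
    have h2 : Module.finrank F E = 0 := Module.finrank_of_not_finite h
    rw [h1, h2, AddMonoidHom.zero_apply, map_zero, Nat.cast_zero, zero_mul]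

end deg

section dom

variable {O : Type u} [CommRing O] [IsLocalRing O] {F : Type u} [Field F] [Algebra O F]

/-- The degree of the extension of residue fields of a dominating discrete valuation ring (zero if
it is infinite). -/
noncomputable def Dom.degree (V : Dom O F) : ℕ :=
  letI := V.resMap.toAlgebra
  Module.finrank (IsLocalRing.ResidueField O) (IsLocalRing.ResidueField V.val)

/-- The valuation of a unit of `F` attached to a dominating discrete valuation ring. -/
noncomputable def Dom.ord (V : Dom O F) (u : Fˣ) : ℤ :=
  haveI := V.dvr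
  (valDV V.val).ord u

theorem Dom.deg0_residue (V : Dom O F) (u : Fˣ) :
    deg0 _ (V.residue 0 (sym fun _ => u)) = Dom.ord V u * Dom.degree V := by
  haveI := V.dvr
  have e : (sym fun _ => u : MilnorK F (0 + 1)) = cup u one0 := by
    unfold one0
    rw [cup_sym]
    congr 1
    funext i
    have : i = 0 := by omega
    subst this
    rfl
  unfold Dom.residue
  rw [AddMonoidHom.comp_apply, e]
  have h1 := tame_zero_sym (valDV V.val) u
  erw [h1]
  rw [map_zsmul, map_zsmul]
  unfold normOf
  letI := V.resMap.toAlgebra
  have h2 := deg0_norm (F := IsLocalRing.ResidueField O) (IsLocalRing.ResidueField V.val) one0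
  rw [deg0_one, mul_one] at h2
  erw [h2]
  rfl

/-- The degree of the Gersten residue of a unit: the sum over the dominating discrete valuation
rings of the valuation times the degree of the residue field extension. -/
theorem deg0_gerstenResidue [Finite (Dom O F)] (u : Fˣ) :
    deg0 _ (gerstenResidue O F 0 (sym fun _ => u)) = ∑ᶠ V : Dom O F, Dom.ord V u * Dom.degree V := by
  have := Fintype.ofFinite (Dom O F)
  unfold gerstenResidue
  rw [finsum_eq_sum_of_fintype, AddMonoidHom.finsetSum_apply, map_sum, finsum_eq_sum_of_fintype]
  exact Finset.sum_congr rfl fun V _ => Dom.deg0_residue V u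

end dom

end Pool.Agent.H62.KG
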