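import Pool.Agent.H15.KEW.G1
import Pool.Agent.H19.KN.Targets
import Pool.Agent.H62.MK.ColFin

/-!
# Project KEW: residues of small elements are small (scheme level), and the differential
-/

namespace Pool.Agent.H62.KG

open AlgebraicGeometry CategoryTheory Pool.Agent.H12.KG Pool.Agent.H19.KN Pool.Agent.H62.MK
  Pool.Agent.H17.KW Pool.Agent.H15.KEW IsLocalRing

universe u

variable {X : Scheme.{u}}

/-- helper12's map and helper17's map are the same. -/
theorem rho_eq {w x : X} (h : w ⤳ x) : Pool.Agent.H17.KW.rho h = Pool.Agent.H12.KG.rho h := rfl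

/-- The residue map `K_(m+1)(κ(v)) → K_m(κ(w))` of the Gersten complex. -/
noncomputable def resX {v w : X} (h : v ⤳ w) (m : ℕ) :
    MilnorK (X.residueField v) (m + 1) →+ MilnorK (X.residueField w) m :=
  resOf (Pool.Agent.H12.KG.rho h) m

theorem entry_eq {v w : X} (h : v ⤳ w) (m : ℕ) : entry v w m = resX h m := dif_pos h

variable {A : Type u} [CommRing A]

/-- The residue field of a horizontal point has characteristic zero. -/
theorem charZero_of_hor [IsDomain A] [IsDiscreteValuationRing A] [CharZero A]
    (f : X ⟶ Spec (CommRingCat.of A)) (π : A) (hπ : Irreducible π) (w : X) (hw : ¬ Sp f π w) :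
    CharZero (X.residueField w) := by
  have hinj : Function.Injective (kA f w) := by
    rw [injective_iff_map_eq_zero]
    intro a ha
    by_contra ha0
    obtain ⟨k, u, rfl⟩ := IsDiscreteValuationRing.eq_unit_mul_pow_irreducible ha0 hπ
    rw [map_mul, map_pow] at ha
    have h1 : kA f w π ≠ 0 := fun e => hw ((sp_iff' f π w).2 e)
    have h2 : kA f w (u : A) ≠ 0 := (u.isUnit.map (kA f w)).ne_zero
    exact mul_ne_zero h2 (pow_ne_zero k h1) ha
  exact (RingHom.charZero_iff hinj).1 inferInstance

/-- NU: residues of small elements are small. -/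
theorem NU (hGRES : T_GRES.{u}) (hGRV : T_GRV.{u}) [IsDomain A] [IsDiscreteValuationRing A]
    [CharZero A] (f : X ⟶ Spec (CommRingCat.of A)) (π : A) (hπ : Irreducible π)
    {v w y : X} (h : v ⤳ w) (h' : w ⤳ y) (q E n : ℕ) (hq : 1 ≤ q)
    (hE : 2 * E + 1 ≤ n) (hgood : ¬ Sp f π w → Good (BB h') (kA f w π) q E) (m : ℕ)
    (c : MilnorK (X.residueField v) (m + 1))
    (hc : c ∈ USub q (kA f v π) n (BB (h.trans h')) (m + 1)) :
    resX h m c ∈ USub q (kA f w π) n (BB h') m := by
  have e0 : (Pool.Agent.H12.KG.rho h).comp (X.presheaf.stalkSpecializes h').hom =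
      Pool.Agent.H12.KG.rho (h.trans h') := by
    ext a
    exact rho_comp h h' a
  have e1 : Pool.Agent.H12.KG.rho h ((X.presheaf.stalkSpecializes h').hom (stA f y π)) =
      kA f v π := by
    rw [← rho_stA f (h.trans h'), ← e0]
    rfl
  have e2 : (X.presheaf.stalkSpecializes h').hom (stA f y π) = stA f w π :=
    stalkSpecializes_stA f h' π
  letI := (Pool.Agent.H12.KG.rho h).toAlgebra
  have hc' : c ∈ USub q (algebraMap (X.presheaf.stalk w) (X.residueField v)
      ((X.presheaf.stalkSpecializes h').hom (stA f y π))) n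
      (icl ((algebraMap (X.presheaf.stalk w) (X.residueField v)).comp
        (X.presheaf.stalkSpecializes h').hom).range (X.residueField v)) (m + 1) := by
    have e3 : algebraMap (X.presheaf.stalk w) (X.residueField v) = Pool.Agent.H12.KG.rho h := rfl
    rw [e3, e1, e0]
    exact hc
  by_cases hw : Sp f π w
  · -- vertical case
    obtain ⟨z, hz⟩ := hGRV (X.presheaf.stalk y) (X.presheaf.stalk w) (X.residueField v)
      (X.presheaf.stalkSpecializes h').hom (stA f y π) q n (by omega)
      (by rw [e2]; exact (mem_maximalIdeal _).2 hw) m c hc'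
    have hz' : resX h m c = q • z := hz
    rw [hz']
    refine AddSubgroup.subset_closure ?_
    cases m with
    | zero => exact ⟨z, rfl⟩
    | succ m => exact Or.inl ⟨z, rfl⟩
  · have hch := charZero_of_hor f π hπ w hw
    have hg := hgood hw
    have e4 : IsLocalRing.residue (X.presheaf.stalk w)
        ((X.presheaf.stalkSpecializes h').hom (stA f y π)) = kA f w π := by
      rw [e2]; rfl
    have key := hGRES (X.presheaf.stalk y) (X.presheaf.stalk w) (X.residueField v)
      (X.presheaf.stalkSpecializes h').hom (stA f y π) q E n hch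
      (by rw [e4]; exact hg) hq hE m c hc'
    rw [e4] at key
    exact key

end Pool.Agent.H62.KG
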