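import Pool.Agent.H62.KG.Trans

/-!
# The restriction maps are compatible with the transition maps
-/

open CategoryTheory TopologicalSpace Opposite AlgebraicGeometry Limits
open Pool.Agent.H62.MK Pool.Agent.H84.KEW Pool.Agent.H17.KW

universe u

namespace Pool.Agent.H62.Clos

noncomputable section

variable {A : Type u} [CommRing A] [IsLocalRing A] {X : Scheme.{u}}
  (f : X ⟶ Spec (CommRingCat.of A)) [IsNoetherian X] {e : ℕ}

lemma transX_redSh (q m k : ℕ) {n n' : ℕ} (h : n ≤ n') (x : Sheaf.H (KSh X m) k) :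
    transX f q m k h (Sheaf.H.map (redSh (thickι f n') q m) k x) =
      Sheaf.H.map (redSh (thickι f n) q m) k x := by
  have e1 := Sheaf.H.map_comp_apply (redSh (thickι f n') q m) (transSh f q m h) x
  rw [redSh_transSh] at e1
  exact e1.symm

lemma res_mk (q n : ℕ) (hG : Gersten X e) (z : Cyc X (e + 1)) :
    res f q n hG (toModQ q (CH X e) (QuotientAddGroup.mk z : CH X e)) = resCyc f q n hG z := rfl

lemma transX_res (q : ℕ) {n n' : ℕ} (h : n ≤ n') (hG : Gersten X e)
    (x : ModQ q (CH X e)) :
    transX f q (e + 1) (e + 1) h (res f q n' hG x) = res f q n hG x := by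
  obtain ⟨y, rfl⟩ := toModQ_surjective q _ x
  obtain ⟨z, rfl⟩ := QuotientAddGroup.mk_surjective (s := (dFam X (e + 1) 0).range) y
  exact transX_redSh f q (e + 1) (e + 1) h (cycK hG z)

/-- The restriction maps `CH^d(X) / q → H^d(X_n, K_d / q)` form a morphism to the pro-system. -/
theorem trans_resThick (q : ℕ) {n n' : ℕ} (h : n ≤ n') (hG : Gersten X e)
    (x : ModQ q (CH X e)) :
    trans f q (e + 1) (e + 1) h (resThick f q n' hG x) = resThick f q n hG x :=
  conj_compSymm _ _ _ _ _ (transX_res f q h hG) x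

end

end Pool.Agent.H62.Clos
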