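import Pool.Agent.H17.KW.ResMap

/-!
# The transition maps between the Milnor K-sheaves of the thickenings
-/

open CategoryTheory TopologicalSpace Opposite AlgebraicGeometry Limits
open Pool.Agent.H62.MK Pool.Agent.H84.KEW Pool.Agent.H17.KW

universe u

namespace Pool.Agent.H62.Clos

noncomputable section

section general

variable {X Y Y' : Scheme.{u}} (i : Y ⟶ X) (j : Y' ⟶ Y) (q n : ℕ)

/-- The natural map of presheaves `K_n(O_Y(U)) / q → (K_{n,Y'} / q)(j⁻¹ U)`. -/
def modRedPre : KModPre Y q n ⟶ (dirIm j (KModSh Y' q n)).obj :=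
  (Functor.whiskerRight j.c (MilnorModFunctor q n)) ≫
    (Functor.whiskerLeft (Opens.map j.base).op
      (toSheafify (Opens.grothendieckTopology Y'.toTopCat) (KModPre Y' q n)))

/-- The natural map of sheaves `K_{n,Y} / q → j_* (K_{n,Y'} / q)`. -/
def modRed : KModSh Y q n ⟶ dirIm j (KModSh Y' q n) :=
  ⟨sheafifyLift (Opens.grothendieckTopology Y.toTopCat) (modRedPre j q n)
    (dirIm j (KModSh Y' q n)).2⟩

/-- The natural map of sheaves `i_* (K_{n,Y} / q) → (j ≫ i)_* (K_{n,Y'} / q)`. -/
def transG : dirIm i (KModSh Y q n) ⟶ dirIm (j ≫ i) (KModSh Y' q n) :=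
  (TopCat.Sheaf.pushforward AddCommGrpCat.{u} i.base).map (modRed j q n)

lemma modRed_toSheafify (V : (Opens Y.toTopCat)ᵒᵖ) (y : (KModPre Y q n).obj V) :
    (modRed j q n).hom.app V
      ((toSheafify (Opens.grothendieckTopology Y.toTopCat) (KModPre Y q n)).app V y) =
      (modRedPre j q n).app V y := by
  have h := toSheafify_sheafifyLift (Opens.grothendieckTopology Y.toTopCat) (modRedPre j q n)
    (dirIm j (KModSh Y' q n)).2
  exact ConcreteCategory.congr_hom (congrArg (fun f => f.app V) h) y

lemma redSh_toSheafify (U : (Opens X.toTopCat)ᵒᵖ) (x : (KPre X n).obj U) :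
    (redSh i q n).hom.app U
      ((toSheafify (Opens.grothendieckTopology X.toTopCat) (KPre X n)).app U x) =
      (redPre i q n).app U x := by
  have h := toSheafify_sheafifyLift (Opens.grothendieckTopology X.toTopCat) (redPre i q n)
    (dirIm i (KModSh Y q n)).2
  exact ConcreteCategory.congr_hom (congrArg (fun f => f.app U) h) x

lemma redSh_transG : redSh i q n ≫ transG i j q n = redSh (j ≫ i) q n := by
  refine Sheaf.hom_ext (sheafify_hom_ext (Opens.grothendieckTopology X.toTopCat) _ _
    (dirIm (j ≫ i) (KModSh Y' q n)).2 ?_)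
  refine NatTrans.ext (funext fun U => ?_)
  refine AddCommGrpCat.hom_ext (AddMonoidHom.ext fun x => ?_)
  refine Eq.trans ?_ (redSh_toSheafify (j ≫ i) q n U x).symm
  have h1 := redSh_toSheafify i q n U x
  refine (congrArg (fun z => (transG i j q n).hom.app U z) h1).trans ?_
  -- the element of `K_n(O_Y(i⁻¹ U)) / q`
  let y : (KModPre Y q n).obj (op ((Opens.map i.base).obj U.unop)) :=
    toModQ q _ (Pool.Agent.H62.MK.map (i.c.app U).hom n x)
  have h2 := modRed_toSheafify j q n (op ((Opens.map i.base).obj U.unop)) y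
  refine Eq.trans h2 ?_
  show (toSheafify (Opens.grothendieckTopology Y'.toTopCat) (KModPre Y' q n)).app _
      (ModQ.map q (Pool.Agent.H62.MK.map (j.c.app (op ((Opens.map i.base).obj U.unop))).hom n)
        (toModQ q _ (Pool.Agent.H62.MK.map (i.c.app U).hom n x))) =
    (toSheafify (Opens.grothendieckTopology Y'.toTopCat) (KModPre Y' q n)).app _
      (toModQ q _ (Pool.Agent.H62.MK.map ((j ≫ i).c.app U).hom n x))
  refine congrArg _ ?_
  rw [ModQ.map_mk]
  refine congrArg _ ?_
  have h3 := congrArg (fun f : _ →+ _ => f x) (milnor_map_comp (i.c.app U).hom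
    (j.c.app (op ((Opens.map i.base).obj U.unop))).hom n)
  exact h3.symm

end general

end

end Pool.Agent.H62.Clos
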